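import Pool.Agent.Lib.MP_361a6f_ag.FL.K0.Geo
import Pool.Agent.Lib.MP_361a6f_ag.FL.PT.B3d

/-!
# Frobenius with a simple spectrum: algebraic correspondences are endomorphisms on `H^1`

The form `ψ` has rational values on the algebraic tensors of length `2` and is positive, and every
algebraic correspondence is a complex polynomial in Frobenius; so it is a rational polynomial in
Frobenius, and a multiple of it is the pull-back along an endomorphism.
-/

open CategoryTheory AlgebraicGeometry MonoidalCategory CartesianMonoidalCategory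

universe u v w w' u'

set_option autoImplicit false
set_option linter.unusedSectionVars false

namespace Pool.Agent.Lib.MP_361a6f_ag.FL.K0

open Pool.Agent.Lib.MP_361a6f_ag.H3 Pool.Agent.Lib.MP_361a6f_ag.SQ
  Pool.Agent.Lib.MP_361a6f_ag.PP Pool.Agent.Lib.MP_361a6f_ag.FL.E

/-! ### Rational coefficients -/

section rat

theorem exists_ret : ∃ φ : ℂ →ₗ[ℚ] ℚ, φ 1 = 1 := by
  have h1 : LinearMap.ker (Algebra.linearMap ℚ ℂ) = ⊥ :=
    LinearMap.ker_eq_bot.2 (algebraMap ℚ ℂ).injective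
  obtain ⟨φ, hφ⟩ := LinearMap.exists_leftInverse_of_injective (Algebra.linearMap ℚ ℂ) h1
  refine ⟨φ, ?_⟩
  have h2 := LinearMap.congr_fun hφ 1
  rw [LinearMap.comp_apply, Algebra.linearMap_apply, map_one] at h2
  exact h2

/-- A complex combination of rational vectors that is rational is a rational combination, if there
is a rational form without isotropic vectors. -/
theorem rat_comb {V : Type*} [AddCommGroup V] [Module ℂ V] (B : V →ₗ[ℂ] V →ₗ[ℂ] ℂ) {A : V → Prop}
    (h0 : A 0) (hadd : ∀ a b, A a → A b → A (a + b))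
    (hq : ∀ (q : ℚ) a, A a → A ((q : ℂ) • a))
    (hrat : ∀ a b, A a → A b → ∃ q : ℚ, B a b = (q : ℂ)) (hpos : ∀ a, A a → a ≠ 0 → B a a ≠ 0)
    {ι : Type*} [Fintype ι] (v : ι → V) (hv : ∀ i, A (v i)) {w : V} (hw : A w) (c : ι → ℂ)
    (hc : w = ∑ i, c i • v i) : ∃ d : ι → ℚ, w = ∑ i, (d i : ℂ) • v i := by
  classical
  obtain ⟨φ, hφ⟩ := exists_ret
  have hφq : ∀ q : ℚ, φ (q : ℂ) = q := by
    intro q
    have h : (q : ℂ) = q • (1 : ℂ) := by rw [Rat.smul_def, mul_one]
    rw [h, map_smul, hφ, smul_eq_mul, mul_one]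
  have hsum : ∀ (s : Finset ι) (f : ι → ℚ), A (∑ i ∈ s, (f i : ℂ) • v i) := by
    intro s f
    induction s using Finset.induction_on with
    | empty => simpa using h0
    | insert a s ha ih =>
      rw [Finset.sum_insert ha]
      exact hadd _ _ (hq _ _ (hv a)) ih
  let d : ι → ℚ := fun i => φ (c i)
  let w' : V := w + ∑ i, ((-(d i) : ℚ) : ℂ) • v i
  have hA' : A w' := hadd _ _ hw (hsum _ _)
  have e : w' = ∑ i, (c i - (d i : ℂ)) • v i := by
    show w + ∑ i, ((-(d i) : ℚ) : ℂ) • v i = _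
    rw [hc, ← Finset.sum_add_distrib]
    refine Finset.sum_congr rfl fun i _ => ?_
    rw [← add_smul]
    congr 1
    push_cast
    ring
  have horth : ∀ i, B (v i) w' = 0 := by
    intro i
    obtain ⟨b, hb⟩ := hrat _ _ (hv i) hw
    choose g hg using fun j => hrat _ _ (hv i) (hv j)
    have h1 : (b : ℂ) = ∑ j, c j * (g j : ℂ) := by
      rw [← hb, hc, map_sum]
      exact Finset.sum_congr rfl fun j _ => by rw [map_smul, hg, smul_eq_mul]
    have h2 : b = ∑ j, g j * d j := by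
      have h3 := congrArg φ h1
      rw [hφq, map_sum] at h3
      rw [h3]
      refine Finset.sum_congr rfl fun j _ => ?_
      have h4 : c j * (g j : ℂ) = g j • c j := by rw [Rat.smul_def, mul_comm]
      rw [h4, map_smul, smul_eq_mul]
    show B (v i) (w + ∑ j, ((-(d j) : ℚ) : ℂ) • v j) = 0
    rw [map_add, hb, map_sum, h2]
    push_cast
    rw [← Finset.sum_add_distrib]
    refine Finset.sum_eq_zero fun j _ => ?_
    rw [map_smul, hg, smul_eq_mul]
    ring
  have hw0 : w' = 0 := by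
    by_contra hne
    apply hpos _ hA' hne
    have h5 : B w' = ∑ i, (c i - (d i : ℂ)) • B (v i) := by
      conv_lhs => rw [e]
      rw [map_sum]
      exact Finset.sum_congr rfl fun i _ => map_smul _ _ _
    rw [h5, LinearMap.sum_apply]
    refine Finset.sum_eq_zero fun i _ => ?_
    rw [LinearMap.smul_apply, horth, smul_zero]
  refine ⟨d, ?_⟩
  have h6 : w + ∑ i, ((-(d i) : ℚ) : ℂ) • v i = 0 := hw0
  have h7 : ∑ i, ((-(d i) : ℚ) : ℂ) • v i = -∑ i, (d i : ℂ) • v i := by
    rw [← Finset.sum_neg_distrib]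
    refine Finset.sum_congr rfl fun i _ => ?_
    rw [← neg_smul]
    congr 1
    push_cast
    rfl
  rw [h7] at h6
  exact add_neg_eq_zero.1 h6

end rat

/-! ### Multiples of endomorphisms -/

section en

variable {k : Type u} [Field k] {W : CohomologyData.{u, 0, w} k ℂ} {X : Sch k}

/-- the operators on `H^1` that are rational multiples of endomorphisms -/
def En (W : CohomologyData.{u, 0, w} k ℂ) (X : Sch k) (φ : Module.End ℂ (W.coh X)) : Prop :=
  ∃ (N : ℕ) (f : X ⟶ X), 0 < N ∧ ∀ v ∈ W.gr X 1, W.pull f v = (N : ℂ) • φ v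

variable {𝒱 : VarietyClass k} (hW : IsWeilCohomology W 𝒱) {n : ℕ} (hX : 𝒱.mem X n)
  (Lw : PT.Law W X)

include Lw in
theorem map_add' (f g : X ⟶ X) : ∃ h : X ⟶ X, ∀ v ∈ W.gr X 1,
    W.pull h v = W.pull f v + W.pull g v := by
  refine ⟨lift f g ≫ Lw.m, fun v hv => ?_⟩
  rw [W.pull_comp, Lw.mul v hv, map_add, ← W.pull_comp, ← W.pull_comp, lift_fst, lift_snd]

include Lw in
theorem map_nsmul' (f : X ⟶ X) (j : ℕ) : ∃ h : X ⟶ X, ∀ v ∈ W.gr X 1,
    W.pull h v = (j : ℂ) • W.pull f v := by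
  induction j with
  | zero =>
    refine ⟨toUnit X ≫ Lw.e, fun v hv => ?_⟩
    rw [W.pull_comp, Lw.one v hv, map_zero, Nat.cast_zero, zero_smul]
  | succ j ih =>
    obtain ⟨h, hh⟩ := ih
    obtain ⟨h', hh'⟩ := map_add' Lw h f
    refine ⟨h', fun v hv => ?_⟩
    rw [hh' v hv, hh v hv]
    push_cast
    rw [add_smul, one_smul]

include hW hX Lw in
theorem map_neg' (f : X ⟶ X) : ∃ h : X ⟶ X, ∀ v ∈ W.gr X 1,
    W.pull h v = -((Lw.N : ℂ) • W.pull f v) := by
  refine ⟨Lw.n ≫ f, fun v hv => ?_⟩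
  rw [W.pull_comp, Lw.neg _ (hW.pull_gr hX hX f hv)]

include Lw in
theorem en_zero : En W X 0 := by
  obtain ⟨h, hh⟩ := map_nsmul' Lw (𝟙 X) 0
  refine ⟨1, h, one_pos, fun v hv => ?_⟩
  rw [hh v hv, Nat.cast_zero, zero_smul, LinearMap.zero_apply, smul_zero]

include Lw in
theorem en_add {φ ψ : Module.End ℂ (W.coh X)} (hφ : En W X φ) (hψ : En W X ψ) :
    En W X (φ + ψ) := by
  obtain ⟨N, f, hN, hf⟩ := hφ
  obtain ⟨M, g, hM, hg⟩ := hψ
  obtain ⟨f', hf'⟩ := map_nsmul' Lw f M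
  obtain ⟨g', hg'⟩ := map_nsmul' Lw g N
  obtain ⟨h, hh⟩ := map_add' Lw f' g'
  refine ⟨N * M, h, Nat.mul_pos hN hM, fun v hv => ?_⟩
  rw [hh v hv, hf' v hv, hg' v hv, hf v hv, hg v hv, LinearMap.add_apply, smul_add, smul_smul,
    smul_smul]
  push_cast
  rw [mul_comm (M : ℂ)]

include hW hX Lw in
theorem en_smul (q : ℚ) {φ : Module.End ℂ (W.coh X)} (hφ : En W X φ) :
    En W X ((q : ℂ) • φ) := by
  obtain ⟨N, f, hN, hf⟩ := hφ
  have hd : (q.den : ℂ) ≠ 0 := by exact_mod_cast q.den_nz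
  have hqd : (q : ℂ) = (q.num : ℂ) / (q.den : ℂ) := by
    conv_lhs => rw [← Rat.num_div_den q]
    push_cast
    rfl
  rcases Int.eq_nat_or_neg q.num with ⟨a, ha | ha⟩
  · obtain ⟨h, hh⟩ := map_nsmul' Lw f a
    refine ⟨N * q.den, h, Nat.mul_pos hN q.den_pos, fun v hv => ?_⟩
    rw [hh v hv, hf v hv, LinearMap.smul_apply, smul_smul, smul_smul, hqd, ha]
    congr 1
    push_cast
    field_simp
  · obtain ⟨f', hf'⟩ := map_neg' hW hX Lw f
    obtain ⟨h, hh⟩ := map_nsmul' Lw f' a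
    refine ⟨N * Lw.N * q.den, h, Nat.mul_pos (Nat.mul_pos hN Lw.pos) q.den_pos, fun v hv => ?_⟩
    rw [hh v hv, hf' v hv, hf v hv, LinearMap.smul_apply, smul_smul, smul_smul, ← neg_smul,
      smul_smul, hqd, ha]
    congr 1
    push_cast
    field_simp

end en

/-! ### The theorem -/

section endo

variable {k : Type u} [Field k] {W : CohomologyData.{u, 0, w} k ℂ} {k' : Type u'} [Field k']
  {W' : CohomologyData.{u', 0, w'} k' ℂ} {𝒱 : VarietyClass k} {𝒱' : VarietyClass k'}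

variable (H : Host W 𝒱 1) {X' : Sch k'} {ξ' : W'.coh X'} (S : Spc W W' H.X X' H.ξ ξ')
  (hW' : IsWeilCohomology W' 𝒱') (hX' : 𝒱'.mem X' (H.n 0))
  (F : X' ⟶ X') {q : ℕ}

/-- **Algebraic correspondences act on `H^1` as multiples of endomorphisms.** -/
theorem endo (hq : 0 < q)
    (hc : ∀ x ∈ W.gr (H.X 0) 0, ∃ c : ℂ, x = c • (1 : W.coh (H.X 0)))
    (hp : PositiveDivisor W (H.X 0) (H.n 0) (H.ξ 0))
    (hF : W'.pull F ξ' = (((q : ℚ) : ℂ)) • ξ')
    (frob : ∀ (P : Prd 1) (l : ℕ) (z : W'.coh (P.obj (host2 H S hW' hX').X)),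
      z ∈ W'.alg (P.obj (host2 H S hW' hX').X) l →
      FrH H S hW' hX' F P z = (((q : ℚ) : ℂ)) ^ l • z)
    (hA : AbelianType W' X' (H.n 0)) (hS : EQ.SimpleSpectrum W' (H.n 0) q F)
    (Lw : PT.Law W' X') (z : W'.coh (X' ⊗ X')) (hz : z ∈ W'.alg (X' ⊗ X') (H.n 0)) :
    En W' X' (cor W' z) := by
  set T : Module.End ℂ (W'.coh X') := (W'.pull F).toLinearMap with hT
  let V : (Sub (host2 H S hW' hX').D (0, 1) → ℂ) →ₗ[ℂ] W'.coh X' := vec1 (host2 H S hW' hX')
  have hVinj : Function.Injective V := fun c d h => by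
    have h1 : crd1 (host2 H S hW' hX') (vec1 (host2 H S hW' hX') c)
        = crd1 (host2 H S hW' hX') (vec1 (host2 H S hW' hX') d) :=
      congrArg (crd1 (host2 H S hW' hX')) h
    rwa [crd1_vec1, crd1_vec1] at h1
  have hVgr : ∀ c, V c ∈ W'.gr X' 1 := fun c => vec1_gr (host2 H S hW' hX') c
  have hVsurj : ∀ y ∈ W'.gr X' 1, ∃ c, V c = y := fun y hy =>
    ⟨crd1 (host2 H S hW' hX') y, vec1_crd1 (host2 H S hW' hX') hy⟩
  have hcor : ∀ z ∈ W'.alg (X' ⊗ X') (H.n 0), ∃ v, At1 (host2 H S hW' hX') 2 v ∧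
      ∀ c, cor W' z (V c) = V ((opM (subD (host2 H S hW' hX').D (0, 1)) v).mulVec c) :=
    fun z hz => cor_vec1 (host2 H S hW' hX') hz
  obtain ⟨vz, hvz, hvz'⟩ := hcor z hz
  -- Frobenius in coordinates
  set M : Matrix (Sub (host2 H S hW' hX').D (0, 1)) (Sub (host2 H S hW' hX').D (0, 1)) ℂ :=
    FM H S hW' hX' F q with hM
  have hsym := symH H S hW' hX' hc hp hF
  have hfr : ∀ c, T (V c) = V ((E.sq q • M).mulVec c) := fun c =>
    frob_vec1 (host2 H S hW' hX') (sq_ne hq) hsym (FrH H S hW' hX' F (.leaf 0)) rfl c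
  -- the correspondence commutes with Frobenius
  have hodd : ∀ i : Sub (host2 H S hW' hX').D (0, 1),
      (subD (host2 H S hW' hX').D (0, 1)).odd ((subD (host2 H S hW' hX').D (0, 1)).typ i) := by
    intro i
    show (host2 H S hW' hX').D.odd ((host2 H S hW' hX').D.typ i.1)
    rw [i.2]
    exact Hst.odd_one (host2 H S hW' hX') 0
  have hG : IsG (subD (host2 H S hW' hX').D (0, 1)) M :=
    gam_one (host2 H S hW' hX') (sq_ne hq) (sq_sq q) hsym (S.posd hp)
  have hcomM : M * opM (subD (host2 H S hW' hX').D (0, 1)) vz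
      = opM (subD (host2 H S hW' hX').D (0, 1)) vz * M := by
    have h1 := QS.opM_gT hodd alg1 hG vz
    have h2 : gT M vz = vz := fix_at1 H S hW' hX' F hq hc hp hF frob 2 vz hvz
    rw [h2] at h1
    conv_rhs => rw [h1]
    rw [Matrix.mul_assoc (M * _), (alg1.G_inv _ M hG).2.2, Matrix.mul_one]
  obtain ⟨p, hpdeg, hp'⟩ := poly_of_comm hW' hX' hA.rank hS (cor W' z) (fun y hy => by
      obtain ⟨c, rfl⟩ := hVsurj y hy
      rw [hvz']
      exact hVgr _) (fun y hy => by
      obtain ⟨c, rfl⟩ := hVsurj y hy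
      have e1 : W'.pull F (V c) = V ((E.sq q • M).mulVec c) := hfr c
      have e2 : W'.pull F (cor W' z (V c)) = T (cor W' z (V c)) := rfl
      rw [e1, e2, hvz', hvz', hfr, Matrix.mulVec_mulVec, Matrix.mulVec_mulVec, Matrix.mul_smul,
        Matrix.smul_mul, hcomM])
  -- the powers of Frobenius
  have hpw : ∀ j : ℕ, ∃ (G : X' ⟶ X') (v : Ten (Sub (host2 H S hW' hX').D (0, 1)) 2),
      (W'.pull G).toLinearMap = T ^ j ∧ At1 (host2 H S hW' hX') 2 v ∧
      ∀ c, (T ^ j) (V c) = V ((opM (subD (host2 H S hW' hX').D (0, 1)) v).mulVec c) := by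
    intro j
    obtain ⟨G, hG⟩ := EvP.pow hW' hX' F j
    obtain ⟨γ, hγ, hγ'⟩ := EvP.pull hW' hX' G
    obtain ⟨v, hv, hv'⟩ := hcor γ hγ
    refine ⟨G, v, hG, hv, fun c => ?_⟩
    rw [← hv' c, ← hG]
    exact (hγ' (V c)).symm
  choose G v hG hv hv' using hpw
  have hsumT : ∀ y, Polynomial.aeval T p y = ∑ j : Fin (2 * H.n 0), p.coeff j • (T ^ (j : ℕ)) y := by
    intro y
    have h1 : p.natDegree < 2 * H.n 0 ∨ p = 0 := by
      by_cases h0 : p = 0
      · exact Or.inr h0
      · left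
        exact (Polynomial.natDegree_lt_iff_degree_lt h0).2 hpdeg
    rcases h1 with h1 | h1
    · rw [Polynomial.aeval_eq_sum_range' h1, LinearMap.sum_apply, Finset.sum_range]
      rfl
    · subst h1
      rw [map_zero, LinearMap.zero_apply]
      exact (Finset.sum_eq_zero fun j _ => by rw [Polynomial.coeff_zero, zero_smul]).symm
  have hvzc : vz = ∑ j : Fin (2 * H.n 0), p.coeff j • v j := by
    have h1 : opM (subD (host2 H S hW' hX').D (0, 1)) vz
        = ∑ j : Fin (2 * H.n 0), p.coeff j • opM (subD (host2 H S hW' hX').D (0, 1)) (v j) := by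
      refine Matrix.mulVec_injective (funext fun c => ?_)
      apply hVinj
      rw [← hvz' c]
      have h2 : cor W' z (V c) = Polynomial.aeval T p (V c) := hp' _ (hVgr c)
      rw [h2, hsumT, Matrix.sum_mulVec, map_sum]
      refine Finset.sum_congr rfl fun j _ => ?_
      rw [Matrix.smul_mulVec, map_smul, hv']
    have h2 : opM (subD (host2 H S hW' hX').D (0, 1)) (∑ j : Fin (2 * H.n 0), p.coeff j • v j)
        = ∑ j : Fin (2 * H.n 0), p.coeff j • opM (subD (host2 H S hW' hX').D (0, 1)) (v j) := by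
      have h3 : ∀ s : Finset (Fin (2 * H.n 0)),
          opM (subD (host2 H S hW' hX').D (0, 1)) (∑ j ∈ s, p.coeff j • v j)
          = ∑ j ∈ s, p.coeff j • opM (subD (host2 H S hW' hX').D (0, 1)) (v j) := by
        intro s
        induction s using Finset.induction_on with
        | empty => rw [Finset.sum_empty, Finset.sum_empty, QS.opM_zero]
        | insert a s ha ih => rw [Finset.sum_insert ha, Finset.sum_insert ha, QS.opM_add, ih,
            QS.opM_smul]
      exact h3 _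
    rw [← QS.mten_opM (D := subD (host2 H S hW' hX').D (0, 1)) vz, h1, ← h2, QS.mten_opM]
  -- rational coefficients
  have S2 := aSys_sub (α := ((0, 1) : Fin 1 × ℕ)) (aSys_at (at_ (host2 H S hW' hX')))
  obtain ⟨d, hd⟩ := rat_comb (Qps.psiL (subD (host2 H S hW' hX').D (0, 1)) 2)
    (A := At1 (host2 H S hW' hX') 2) (S2.zero 2) (fun a b ha hb => S2.add 2 a b ha hb)
    (fun q a ha => S2.qsmul 2 q a ha) (fun a b ha hb => Qps.psi_rat S2 ha hb)
    (fun a ha h0 => by
      obtain ⟨r, hr, h1⟩ := pos_at1 H S hW' hX' F hq hc hp hF frob hA hS a ha h0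
      rw [Qps.psiL_apply, h1]
      exact_mod_cast hr.ne') (fun j : Fin (2 * H.n 0) => v j) (fun j => hv j) hvz _ hvzc
  -- the operator
  have hen : En W' X' (∑ j : Fin (2 * H.n 0), (d j : ℂ) • T ^ (j : ℕ)) := by
    have h3 : ∀ s : Finset (Fin (2 * H.n 0)), En W' X' (∑ j ∈ s, (d j : ℂ) • T ^ (j : ℕ)) := by
      intro s
      induction s using Finset.induction_on with
      | empty =>
        rw [Finset.sum_empty]
        exact en_zero Lw
      | insert a s ha ih =>
        rw [Finset.sum_insert ha]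
        refine en_add Lw (en_smul hW' hX' Lw _ ⟨1, G a, one_pos, fun y _ => ?_⟩) ih
        rw [Nat.cast_one, one_smul, ← hG]
        rfl
    exact h3 _
  obtain ⟨N, f, hN, hf⟩ := hen
  refine ⟨N, f, hN, fun y hy => ?_⟩
  rw [hf y hy]
  congr 1
  obtain ⟨c, rfl⟩ := hVsurj y hy
  rw [hvz', LinearMap.sum_apply]
  have h1 : ∀ j : Fin (2 * H.n 0), ((d j : ℂ) • T ^ (j : ℕ)) (V c)
      = V (((d j : ℂ) • opM (subD (host2 H S hW' hX').D (0, 1)) (v j)).mulVec c) := by
    intro j
    rw [LinearMap.smul_apply, hv', Matrix.smul_mulVec, map_smul]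
  rw [Finset.sum_congr rfl fun j _ => h1 j, ← map_sum, ← Matrix.sum_mulVec]
  congr 2
  have h3 : ∀ s : Finset (Fin (2 * H.n 0)),
      opM (subD (host2 H S hW' hX').D (0, 1)) (∑ j ∈ s, (d j : ℂ) • v j)
      = ∑ j ∈ s, (d j : ℂ) • opM (subD (host2 H S hW' hX').D (0, 1)) (v j) := by
    intro s
    induction s using Finset.induction_on with
    | empty => rw [Finset.sum_empty, Finset.sum_empty, QS.opM_zero]
    | insert a s ha ih => rw [Finset.sum_insert ha, Finset.sum_insert ha, QS.opM_add, ih,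
        QS.opM_smul]
  rw [← h3, hd]

end endo

end Pool.Agent.Lib.MP_361a6f_ag.FL.K0
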