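import Pool.Agent.Lib.MP_361a6f_ag.FL.PT.EndP

/-!
# `ψ` is positive definite on the algebraic classes of a product if it is positive definite on the
algebraic tensors whose letters have degree one
-/

open CategoryTheory AlgebraicGeometry MonoidalCategory CartesianMonoidalCategory

universe u v w

set_option autoImplicit false
set_option linter.unusedSectionVars false

namespace Pool.Agent.Lib.MP_361a6f_ag.FL.K0

open Pool.Agent.Lib.MP_361a6f_ag.H3 Pool.Agent.Lib.MP_361a6f_ag.SQ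
  Pool.Agent.Lib.MP_361a6f_ag.PP Pool.Agent.Lib.MP_361a6f_ag.AV48

open EndE EndFr

variable {k : Type u} [Field k] {m : ℕ} {W : CohomologyData.{u, 0, w} k ℂ} {𝒱 : VarietyClass k}
  (H : Host W 𝒱 m)

/-- `ψ` is positive definite on the algebraic tensors of length `L` whose letters all have
degree one -/
def PosD (L : ℕ) : Prop :=
  ∀ u : Ten H.I L, u ∈ H.At L → (∀ w, ¬ D1 H w → u w = 0) → u ≠ 0 →
    ∃ r : ℝ, 0 < r ∧ psiT H.D u u = (r : ℂ)

section main

variable {P : Prd m} {η : W.coh (P.obj H.X)} {Lam : Module.End ℂ (W.coh (P.obj H.X))}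
  {D : LamData W (P.obj H.X) (P.dim H.n) η Lam} {S : Type} [Fintype S] [DecidableEq S]
  {a : S → Fin m} {f : ∀ s, P.obj H.X ⟶ H.X (a s)} {κ : S → ℝ} (Fr : Frm H P D a f κ)

include Fr

/-- **`ψ(x, x) > 0` for all algebraic classes `x ≠ 0` of degree `n + 1`.** -/
theorem psi_pos (hA : AbelianType W (P.obj H.X) (P.dim H.n))
    (hη : PositiveDivisor W (P.obj H.X) (P.dim H.n) η) {n : ℕ} (hpos : PosD H (n + 1))
    {x : W.coh (P.obj H.X)} (hx : x ∈ tot W (P.obj H.X)) (hxg : x ∈ W.gr (P.obj H.X) (n + 1))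
    (hx0 : x ≠ 0) :
    ∃ r : ℝ, 0 < r ∧ psi W (P.obj H.X) η Lam D.slm.internal x x = (r : ℂ) := by
  obtain ⟨r, hr, h11⟩ := psi_one H.hW (H.memP P) hA hη D
  have key := psi_frame H.hW (H.memP P) hA hη D (el_gr H Fr) (el'_gr H Fr) (dual H Fr) (n + 1)
    hxg x
  have hfr := frame H.hW (H.memP P) hA hη D (el_gr H Fr) (el'_gr H Fr) (dual H Fr) (n + 1)
    x hxg
  choose u huA hu0 hu using fun σ : Fin (n + 1) → S => word H Fr σ hη.1 hx hxg
  -- the products of the dual letters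
  have e1 : ∀ (σ : Fin (n + 1) → S) (w : Fin (n + 1) → H.I),
      psi W (P.obj H.X) η Lam D.slm.internal
        (List.ofFn fun l => el' H D a f κ (σ l, w l)).prod x
      = (-(r : ℂ)) ^ (n + 1) * ((∏ l, ((κ (σ l) : ℂ)⁻¹)) * sg H.D (H.D.τ ∘ w))
        * (sg H.D w * u σ w) := by
    intro σ w
    have h1 : (List.ofFn fun l => el' H D a f κ (σ l, w l)).prod
        = (∏ l, (-(r : ℂ) * ((κ (σ l) : ℂ)⁻¹ * H.D.s (H.D.τ (w l)))))
          • (List.ofFn fun l => el H a f (σ l, H.D.τ (w l))).prod := by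
      rw [← prod_smul]
      congr 2
      funext l
      rw [el', h11]
    have h2 := hu σ (H.D.τ ∘ w)
    have h3 : H.D.τ ∘ (H.D.τ ∘ w) = w := by
      funext i
      exact H.D.τ_τ _
    rw [h3] at h2
    have h4 : psi W (P.obj H.X) η Lam D.slm.internal
        (List.ofFn fun l => el H a f (σ l, H.D.τ (w l))).prod x = sg H.D w * u σ w := h2
    rw [h1, psi_smul_left, h4, Finset.prod_mul_distrib, Finset.prod_mul_distrib,
      Finset.prod_const, Finset.card_univ, Fintype.card_fin]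
    rfl
  have e2 : ∑ w : Fin (n + 1) → S × H.I,
        psi W (P.obj H.X) η Lam D.slm.internal (List.ofFn fun l => el' H D a f κ (w l)).prod x
          * psi W (P.obj H.X) η Lam D.slm.internal (List.ofFn fun l => el H a f (w l)).prod x
      = ∑ σ : Fin (n + 1) → S, (-(r : ℂ)) ^ (n + 1) * (∏ l, ((κ (σ l) : ℂ)⁻¹))
          * psiT H.D (u σ) (u σ) := by
    rw [← (Equiv.arrowProdEquivProdArrow (Fin (n + 1)) (fun _ => S) (fun _ => H.I)).symm.sum_comp,
      Fintype.sum_prod_type]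
    refine Finset.sum_congr rfl fun σ _ => ?_
    rw [psiT, Finset.mul_sum]
    refine Finset.sum_congr rfl fun w _ => ?_
    have h1 := e1 σ w
    have h2 := hu σ w
    have h3 : psi W (P.obj H.X) η Lam D.slm.internal (List.ofFn fun l => el' H D a f κ
        ((Equiv.arrowProdEquivProdArrow (Fin (n + 1)) (fun _ => S) (fun _ => H.I)).symm
          (σ, w) l)).prod x = (-(r : ℂ)) ^ (n + 1)
            * ((∏ l, ((κ (σ l) : ℂ)⁻¹)) * sg H.D (H.D.τ ∘ w)) * (sg H.D w * u σ w) := h1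
    have h4 : psi W (P.obj H.X) η Lam D.slm.internal (List.ofFn fun l => el H a f
        ((Equiv.arrowProdEquivProdArrow (Fin (n + 1)) (fun _ => S) (fun _ => H.I)).symm
          (σ, w) l)).prod x = sg H.D (H.D.τ ∘ w) * u σ (H.D.τ ∘ w) := h2
    rw [h3, h4]
    have h5 := sg_sq H (H.D.τ ∘ w)
    calc _ = (-(r : ℂ)) ^ (n + 1) * (∏ l, ((κ (σ l) : ℂ)⁻¹))
          * (sg H.D (H.D.τ ∘ w) * sg H.D (H.D.τ ∘ w))
          * (sg H.D w * (u σ w * u σ (H.D.τ ∘ w))) := by ring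
      _ = _ := by rw [h5, mul_one]
  rw [e2, h11] at key
  have hf0 : (((n + 1).factorial : ℕ) : ℂ) ≠ 0 := by exact_mod_cast (n + 1).factorial_ne_zero
  have hr0 : (r : ℂ) ≠ 0 := by exact_mod_cast hr.ne'
  -- one of the tensors is not zero
  obtain ⟨σ₀, hσ₀⟩ : ∃ σ, u σ ≠ 0 := by
    by_contra hcon
    push Not at hcon
    apply hx0
    have h1 : ∀ w : Fin (n + 1) → S × H.I, psi W (P.obj H.X) η Lam D.slm.internal
        (List.ofFn fun l => el' H D a f κ (w l)).prod x = 0 := by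
      intro w
      have h2 := e1 (fun l => (w l).1) (fun l => (w l).2)
      rw [hcon, Pi.zero_apply, mul_zero, mul_zero] at h2
      exact h2
    rw [Finset.sum_eq_zero fun w _ => by rw [h1 w, zero_smul], smul_zero, h11] at hfr
    exact (smul_eq_zero.1 hfr).resolve_left (mul_ne_zero hf0 hr0)
  have hex : ∀ σ : Fin (n + 1) → S, ∃ ρ : ℝ, (0 ≤ ρ ∧ (u σ ≠ 0 → 0 < ρ)) ∧
      psiT H.D (u σ) (u σ) = (ρ : ℂ) := by
    intro σ
    by_cases h0 : u σ = 0
    · refine ⟨0, ⟨le_rfl, fun h => absurd h0 h⟩, ?_⟩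
      rw [h0, psiT, Finset.sum_eq_zero]
      · exact Complex.ofReal_zero.symm
      · intro w _
        rw [Pi.zero_apply, zero_mul, mul_zero]
    · obtain ⟨ρ, hρ, h⟩ := hpos (u σ) (huA σ) (hu0 σ) h0
      exact ⟨ρ, ⟨hρ.le, fun _ => hρ⟩, h⟩
  choose ρ hρ0 hρ using hex
  refine ⟨(((n + 1).factorial : ℝ) * r)⁻¹ * (r ^ (n + 1)
    * ∑ σ : Fin (n + 1) → S, (∏ l, (κ (σ l))⁻¹) * ρ σ), ?_, ?_⟩
  · refine mul_pos (by positivity) (mul_pos (by positivity) ?_)
    refine Finset.sum_pos' (fun σ _ => mul_nonneg ?_ (hρ0 σ).1) ⟨σ₀, Finset.mem_univ _, ?_⟩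
    · exact Finset.prod_nonneg fun l _ => inv_nonneg.2 (Fr.pos (σ l)).le
    · exact mul_pos (Finset.prod_pos fun l _ => inv_pos.2 (Fr.pos (σ₀ l))) ((hρ0 σ₀).2 hσ₀)
  · have h1 : (-1 : ℂ) ^ (n + 1) * ∑ σ : Fin (n + 1) → S, (-(r : ℂ)) ^ (n + 1)
        * (∏ l, ((κ (σ l) : ℂ)⁻¹)) * psiT H.D (u σ) (u σ)
        = (r : ℂ) ^ (n + 1) * ∑ σ : Fin (n + 1) → S, (∏ l, ((κ (σ l) : ℂ)⁻¹)) * (ρ σ : ℂ) := by
      rw [Finset.mul_sum, Finset.mul_sum]
      refine Finset.sum_congr rfl fun σ _ => ?_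
      rw [hρ σ]
      have h2 : (-1 : ℂ) ^ (n + 1) * (-(r : ℂ)) ^ (n + 1) = (r : ℂ) ^ (n + 1) := by
        rw [← mul_pow]
        congr 1
        ring
      rw [← h2]
      ring
    rw [h1] at key
    have h3 : psi W (P.obj H.X) η Lam D.slm.internal x x
        = ((((n + 1).factorial : ℕ) : ℂ) * r)⁻¹ * ((((n + 1).factorial : ℕ) : ℂ) * r
          * psi W (P.obj H.X) η Lam D.slm.internal x x) := by
      rw [← mul_assoc, inv_mul_cancel₀ (mul_ne_zero hf0 hr0), one_mul]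
    rw [h3, key]
    push_cast
    rfl

end main

/-- definiteness over the letter `(0, 1)` -/
theorem posD_of (H : Host W 𝒱 1) {L : ℕ} (h : ∀ u : Ten (E.Sub H.D (0, 1)) L,
    E.atS H.D (0, 1) (fun L u => u ∈ H.At L) L u → u ≠ 0 →
      ∃ r : ℝ, 0 < r ∧ psiT (E.subD H.D (0, 1)) u u = (r : ℂ)) : PosD H L := by
  intro u hu hu1 h0
  have e : u = E.ext0 H.D (0, 1) (fun w => u (E.up w)) :=
    E.eq_ext0 (fun _ => rfl) fun w hw => hu1 w fun hh => hw ((on_iff H w).2 hh)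
  obtain ⟨r, hr, hp⟩ := h (fun w => u (E.up w)) (by
    change E.ext0 H.D (0, 1) (fun w => u (E.up w)) ∈ H.At L
    rw [← e]
    exact hu) (fun h => h0 (by rw [e, h]; exact map_zero (E.ext0 H.D (0, 1))))
  refine ⟨r, hr, ?_⟩
  rwa [← E.psiT_ext, ← e] at hp

/-- **`Q1` in codimension `j`** for one product and one polarisation. -/
theorem q1 (H : Host W 𝒱 m) (hAb : ∀ a, AbelianType W (H.X a) (H.n a))
    (hpd : ∀ a, PositiveDivisor W (H.X a) (H.n a) (H.ξ a)) {P : Prd m} {η : W.coh (P.obj H.X)}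
    (hη : IsPol W H.ξ P η) {j : ℕ} (hj0 : 0 < j) (hpos : PosD H (2 * j)) :
    HodgeCodim W (P.obj H.X) (P.dim H.n) η j := by
  obtain ⟨Lam, D, S, i, i', a, f, κ, F, hA, hp⟩ := exists_frm H hAb hpd hη
  intro hj x hx hprim hx0
  obtain ⟨n, hn⟩ : ∃ n, 2 * j = n + 1 := ⟨2 * j - 1, by omega⟩
  have hxg : x ∈ W.gr (P.obj H.X) (2 * j) := H.hW.alg_gr (H.memP P) hx
  have hxt : x ∈ tot W (P.obj H.X) := alg_le_tot H.hW _ _ hx
  rw [hn] at hpos
  obtain ⟨r, hr, h1⟩ := psi_pos H F hA hp hpos hxt (by rw [← hn]; exact hxg) hx0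
  -- the class is primitive
  have hΛ : Lam x = 0 := by
    refine (sl2 D.slm).2.2.2.2.2.1 (2 * j) x hj hxg ?_
    rw [PSI.Lop_pow H.hW (H.memP P)]
    exact hprim
  obtain ⟨q, hq, hst⟩ := HrPsi.star_str D.slm hj hxg hΛ 0 (Nat.zero_le _)
  have hpw : η ^ (P.dim H.n - 2 * j) * x = x * η ^ (P.dim H.n - 2 * j) :=
    tot_comm H.hW (H.memP P) (EndNum.pow_tot H.hW (H.memP P) hp.1 _) x
  have e1 : psi W (P.obj H.X) η Lam D.slm.internal x x
      = (q : ℂ) * ((-1) ^ j * W.tr (P.obj H.X) (η ^ (P.dim H.n - 2 * j) * (x * x))) := by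
    rw [pow_zero, Module.End.one_apply, Nat.sub_zero, PSI.Lop_pow H.hW (H.memP P),
      StaB.sgn_even] at hst
    rw [psi, hst, mul_smul_comm, map_smul, smul_eq_mul, ← mul_assoc x, ← hpw,
      mul_assoc (η ^ _)]
    ring
  obtain ⟨t, ht⟩ := tot_tr H.hW (H.memP P) (tot_mul H.hW (H.memP P)
    (EndNum.pow_tot H.hW (H.memP P) hp.1 (P.dim H.n - 2 * j)) (tot_mul H.hW (H.memP P) hxt hxt))
  refine ⟨(-1) ^ j * t, ?_, ?_⟩
  · have h2 : ((q * ((-1) ^ j * t) : ℚ) : ℂ) = (r : ℂ) := by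
      rw [← h1, e1, ht]
      push_cast
      ring
    have h3 : (((q * ((-1) ^ j * t) : ℚ)) : ℝ) = r := by exact_mod_cast h2
    have h4 : (0 : ℝ) < (((q * ((-1) ^ j * t) : ℚ)) : ℝ) := by rw [h3]; exact hr
    have h5 : 0 < q * ((-1) ^ j * t) := by exact_mod_cast h4
    exact (mul_pos_iff_of_pos_left hq).1 h5
  · change (-1) ^ j * W.tr (P.obj H.X) (η ^ (P.dim H.n - 2 * j) * (x * x)) = _
    rw [ht]
    push_cast
    ring

end Pool.Agent.Lib.MP_361a6f_ag.FL.K0
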