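import Pool.Agent.Lib.MP_361a6f_ag.FL.E.StatK

/-!
# Theorem K without Tate's theorem and without the Hodge index theorem

If the Frobenius endomorphism of the reduction `X'` has `2 g` different eigenvalues of absolute value
`√q` on `H^1(X')`, then Tate's theorem on the endomorphisms of `X'` and the Hodge index theorem for
`X' × X'` can be proved, and need not be assumed.
-/

open CategoryTheory AlgebraicGeometry MonoidalCategory CartesianMonoidalCategory

universe u v w w'

namespace Pool.Agent.Lib.MP_361a6f_ag.FL.EQ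

open Pool.Agent.Lib.MP_361a6f_ag.H3 Pool.Agent.Lib.MP_361a6f_ag.SQ

variable {k : Type u} [Field k] {k' : Type v} [Field k']

/-- `F^*` has `2 n` different eigenvalues of absolute value `√q` on `H^1(X')`. -/
def SimpleSpectrum (W' : CohomologyData.{v, 0, w'} k' ℂ) {X' : Sch k'} (n q : ℕ)
    (F : Sch.Mor X' X') : Prop :=
  ∃ a : Fin (2 * n) → ℂ, Function.Injective a ∧ ∀ i, ‖a i‖ ^ 2 = q ∧
    ∃ x, W'.Deg X' 1 x ∧ x ≠ 0 ∧ W'.pb F x = W'.scal (a i) x

/-- The hypotheses: `X` is an abelian variety (a unital law and `H^0(X) = ℂ` are enough), `ξ` is a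
divisor class of positive degree, `s` is a specialisation, `F` is (a power of) the Frobenius
endomorphism over the field with `q` elements: `F × ⋯ × F` multiplies the algebraic classes of
codimension `l` on the powers of `X'` by `q^l`, `F^*` has `2 g` different eigenvalues on `H^1(X')`,
these have the absolute value `√q` (Weil), and the quotient of two different ones is not a root of
unity. -/
structure HypS {W : CohomologyData.{u, 0, w} k ℂ} (𝒱 : VarietyClass k)
    {W' : CohomologyData.{v, 0, w'} k' ℂ} (𝒱' : VarietyClass k') (D : Data W W') : Prop where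
  mem : 𝒱.mem D.X D.g
  conn : ∀ x, W.Deg D.X 0 x → ∃ c, x = W.scal c 1
  unital : Unital D.X
  div : PositiveDivisor W D.X D.g D.ξ
  mem' : 𝒱'.mem D.X' D.g
  spec : IsSpec W D.X W' D.X' D.s
  pos : 0 < D.q
  frob : ∀ P l z, W'.IsAlg (pw D.X' P) l z →
    W'.pb (pwMap D.F P) z = W'.scal ((D.q : ℂ) ^ l) z
  simple : SimpleSpectrum W' D.g D.q D.F
  ratio : RatioFree W' D.F

end Pool.Agent.Lib.MP_361a6f_ag.FL.EQ

namespace Pool.Agent.Lib.MP_361a6f_ag.FL

open Pool.Agent.Lib.MP_361a6f_ag.H3 Pool.Agent.Lib.MP_361a6f_ag.SQ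

/-- **Tate's theorem and the Hodge index theorem** for a Frobenius endomorphism with a simple
spectrum. -/
def HypSStatement : Prop :=
  ∀ {k : Type u} [Field k] (W : CohomologyData.{u, 0, w} k ℂ) (𝒱 : VarietyClass k)
    (_ : IsWeilCohomology W 𝒱) {k' : Type v} [Field k'] (W' : CohomologyData.{v, 0, w'} k' ℂ)
    (𝒱' : VarietyClass k') (_ : IsWeilCohomology W' 𝒱') (D : EQ.Data W W'),
    EQ.HypS 𝒱 𝒱' D → EQ.Hyp 𝒱 𝒱' D

/-- **Theorem K0.** `Q1` for all algebraic classes on all powers of `X`, and numerical equivalence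
is homological equivalence. -/
def ThmK0GeoStatement : Prop :=
  ∀ {k : Type u} [Field k] (W : CohomologyData.{u, 0, w} k ℂ) (𝒱 : VarietyClass k)
    (_ : IsWeilCohomology W 𝒱) {k' : Type v} [Field k'] (W' : CohomologyData.{v, 0, w'} k' ℂ)
    (𝒱' : VarietyClass k') (_ : IsWeilCohomology W' 𝒱') (D : EQ.Data W W') (_ : EQ.HypS 𝒱 𝒱' D)
    (_ : EQ.GoodCentre W D.X D.g D.ξ)
    (P : Prd 1) (η : W.coh (EQ.pw D.X P)) (_ : IsPol W (fun _ => D.ξ) P η),
    EQ.Q1 W (EQ.pw D.X P) (P.dim fun _ => D.g) η ∧ EQ.NumHom W (EQ.pw D.X P)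

end Pool.Agent.Lib.MP_361a6f_ag.FL
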