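import Pool.Agent.Lib.MP_361a6f_ag.FL.K0.Pos
import Pool.Agent.Lib.MP_361a6f_ag.FL.K0.Fr
import Pool.Agent.Lib.MP_361a6f_ag.FL.K0.StatK0
import Pool.Agent.Lib.MP_361a6f_ag.FL.E.AsmN
import Pool.Agent.Lib.MP_361a6f_ag.FL.P.EvP

/-!
# Frobenius with a simple spectrum: the Hodge index theorem and Tate's theorem
-/

open CategoryTheory AlgebraicGeometry MonoidalCategory CartesianMonoidalCategory

universe u v w w' u'

set_option autoImplicit false
set_option linter.unusedSectionVars false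

namespace Pool.Agent.Lib.MP_361a6f_ag.FL.K0

open Pool.Agent.Lib.MP_361a6f_ag.H3 Pool.Agent.Lib.MP_361a6f_ag.SQ
  Pool.Agent.Lib.MP_361a6f_ag.PP Pool.Agent.Lib.MP_361a6f_ag.FL.E

/-! ### The reduction has the cohomology of an abelian variety -/

section transport

variable {k : Type u} [Field k] {W : CohomologyData.{u, 0, w} k ℂ} {k' : Type v} [Field k']
  {W' : CohomologyData.{v, 0, w'} k' ℂ} {𝒱 : VarietyClass k} {𝒱' : VarietyClass k'}
  {X : Fin 1 → Sch k} {X' : Sch k'} {ξ : ∀ a, W.coh (X a)} {ξ' : W'.coh X'} {n : ℕ}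

theorem spc_abelianType (S : Spc W W' X X' ξ ξ') (hW : IsWeilCohomology W 𝒱)
    (hW' : IsWeilCohomology W' 𝒱') (hX : 𝒱.mem (X 0) n) (hX' : 𝒱'.mem X' n)
    (hA : AbelianType W (X 0) n) : AbelianType W' X' n where
  gen y := by
    have h1 : ∀ x ∈ Algebra.adjoin ℂ {y : W.coh (X 0) | W.Deg (X 0) 1 y},
        S.s0 x ∈ Algebra.adjoin ℂ {y : W'.coh X' | W'.Deg X' 1 y} := by
      intro x hx
      induction hx using Algebra.adjoin_induction with
      | mem x hx => exact Algebra.subset_adjoin (S.gr 1 x hx)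
      | algebraMap r =>
        rw [Algebra.algebraMap_eq_smul_one, map_smul, S.one]
        exact Subalgebra.smul_mem _ (one_mem _) r
      | add x y _ _ hx hy =>
        rw [map_add]
        exact add_mem hx hy
      | mul x y _ _ hx hy =>
        rw [S.mul]
        exact mul_mem hx hy
    have h2 := h1 (S.s0.symm y) (hA.gen _)
    rwa [LinearEquiv.apply_symm_apply] at h2
  rank := by
    have h1 : (W.gr (X 0) 1).map S.s0.toLinearMap = W'.gr X' 1 := by
      apply le_antisymm
      · rintro _ ⟨x, hx, rfl⟩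
        exact S.gr 1 x hx
      · intro y hy
        exact ⟨S.s0.symm y, StarTr.symm_gr S.s0 (hW.internal hX) (hW'.internal hX') S.gr hy,
          LinearEquiv.apply_symm_apply _ _⟩
    rw [← h1, ← hA.rank]
    exact (LinearEquiv.finrank_eq (S.s0.submoduleMap (W.gr (X 0) 1))).symm

end transport

/-! ### Tate's theorem -/

section tate

variable {k : Type u} [Field k] {W : CohomologyData.{u, 0, w} k ℂ} {𝒱 : VarietyClass k}
  (hW : IsWeilCohomology W 𝒱) {X : Sch k} {n q : ℕ} (hX : 𝒱.mem X n) {F : Sch.Mor X X}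
  (hr : Module.finrank ℂ (W.gr X 1) = 2 * n)

include hW hX hr in
/-- an operator that commutes with Frobenius on `H^1` is a polynomial in Frobenius -/
theorem poly_of_comm (hS : EQ.SimpleSpectrum W n q F) (φ : W.coh X →ₗ[ℂ] W.coh X)
    (hφ : ∀ x, W.Deg X 1 x → W.Deg X 1 (φ x))
    (hcomm : ∀ y, W.Deg X 1 y → φ (W.pull F y) = W.pull F (φ y)) :
    ∃ p : Polynomial ℂ, p.degree < (2 * n : ℕ) ∧ ∀ x, W.Deg X 1 x →
      φ x = Polynomial.aeval ((W.pull F).toLinearMap : Module.End ℂ (W.coh X)) p x := by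
  obtain ⟨a, ha, h⟩ := hS
  choose hn x hx hx0 hFx using h
  set T : Module.End ℂ (W.coh X) := (W.pull F).toLinearMap with hT
  have hfin : Module.Finite ℂ (W.coh X) := hW.finite hX
  have hTx : ∀ i, T (x i) = a i • x i := hFx
  -- the eigenvectors form a basis
  have hli : LinearIndependent ℂ x := by
    refine Module.End.eigenvectors_linearIndependent' T a ha x fun i => ?_
    rw [Module.End.hasEigenvector_iff, Module.End.mem_eigenspace_iff]
    exact ⟨hTx i, hx0 i⟩
  have hspan : W.gr X 1 ≤ Submodule.span ℂ (Set.range x) := by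
    have h1 : Submodule.span ℂ (Set.range x) ≤ W.gr X 1 := by
      rw [Submodule.span_le]
      rintro _ ⟨i, rfl⟩
      exact hx i
    refine (Submodule.eq_of_le_of_finrank_eq h1 ?_).ge
    rw [finrank_span_eq_card hli, Fintype.card_fin, hr]
  -- the images of the eigenvectors
  have hφx : ∀ i, ∃ c : ℂ, φ (x i) = c • x i := by
    intro i
    have h1 : φ (x i) ∈ Submodule.span ℂ (Set.range x) := hspan (hφ _ (hx i))
    obtain ⟨c, hc⟩ := (Submodule.mem_span_range_iff_exists_fun ℂ).1 h1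
    refine ⟨c i, ?_⟩
    have h2 : T (φ (x i)) = a i • φ (x i) := by
      have h3 : T (φ (x i)) = φ (T (x i)) := (hcomm _ (hx i)).symm
      rw [h3, hTx, map_smul]
    rw [← hc, map_sum, Finset.smul_sum] at h2
    have h3 : ∑ j, ((c j) * (a j - a i)) • x j = 0 := by
      have h4 : ∀ j, ((c j) * (a j - a i)) • x j = T (c j • x j) - a i • c j • x j := by
        intro j
        rw [map_smul, hTx, smul_smul, smul_smul, ← sub_smul]
        congr 1
        ring
      rw [Finset.sum_congr rfl fun j _ => h4 j, Finset.sum_sub_distrib, h2, sub_self]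
    have h5 := Fintype.linearIndependent_iff.1 hli _ h3
    rw [← hc, Finset.sum_eq_single i]
    · intro j _ hj
      have h6 : c j = 0 := (mul_eq_zero.1 (h5 j)).resolve_right
        (sub_ne_zero.2 fun h7 => hj (ha h7))
      rw [h6, zero_smul]
    · intro h6
      exact absurd (Finset.mem_univ _) h6
  choose c hc using hφx
  -- interpolation
  refine ⟨Lagrange.interpolate Finset.univ a c, ?_, fun y hy => ?_⟩
  · have h1 := Lagrange.degree_interpolate_lt (s := Finset.univ) (v := a) c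
      (fun i _ j _ h => ha h)
    rwa [Finset.card_univ, Fintype.card_fin] at h1
  have hpow : ∀ (p : Polynomial ℂ) (i : Fin (2 * n)),
      Polynomial.aeval T p (x i) = p.eval (a i) • x i := by
    intro p i
    exact Module.End.aeval_apply_of_hasEigenvector (f := T) (p := p) (μ := a i) (x := x i) (by
      rw [Module.End.hasEigenvector_iff, Module.End.mem_eigenspace_iff]
      exact ⟨hTx i, hx0 i⟩)
  obtain ⟨b, hb⟩ := (Submodule.mem_span_range_iff_exists_fun ℂ).1 (hspan hy)
  show φ y = Polynomial.aeval T _ y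
  rw [← hb, map_sum, map_sum]
  refine Finset.sum_congr rfl fun i _ => ?_
  rw [map_smul, map_smul, hc, hpow, Lagrange.eval_interpolate_at_node _ (fun i _ j _ h => ha h)
    (Finset.mem_univ i)]

include hW hX hr in
/-- **Tate's theorem** for a simple spectrum -/
theorem commutant (hS : EQ.SimpleSpectrum W n q F) : EQ.Commutant W n F := by
  intro φ hφ hcom
  obtain ⟨p, -, hp⟩ := poly_of_comm hW hX hr hS φ hφ (by
    obtain ⟨γ, hγ, hγ'⟩ := EvP.pull hW hX F
    intro y hy
    have h1 := hcom γ hγ y hy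
    have e : ∀ z, EQ.act W γ z = W.pull F z := hγ'
    rwa [e, e] at h1)
  exact ⟨p, hp⟩

end tate

/-! ### The Hodge index theorem -/

section index

variable {k : Type u} [Field k] {W : CohomologyData.{u, 0, w} k ℂ} {k' : Type u'} [Field k']
  {W' : CohomologyData.{u', 0, w'} k' ℂ} {𝒱 : VarietyClass k} {𝒱' : VarietyClass k'}

variable (H : Host W 𝒱 1) {X' : Sch k'} {ξ' : W'.coh X'} (S : Spc W W' H.X X' H.ξ ξ')
  (hW' : IsWeilCohomology W' 𝒱') (hX' : 𝒱'.mem X' (H.n 0))
  (F : X' ⟶ X') {q : ℕ}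

/-- the tensors of length `2` of the algebraic correspondences are fixed by Frobenius -/
theorem fix_at1 (hq : 0 < q)
    (hc : ∀ x ∈ W.gr (H.X 0) 0, ∃ c : ℂ, x = c • (1 : W.coh (H.X 0)))
    (hp : PositiveDivisor W (H.X 0) (H.n 0) (H.ξ 0))
    (hF : W'.pull F ξ' = (((q : ℚ) : ℂ)) • ξ')
    (frob : ∀ (P : Prd 1) (l : ℕ) (z : W'.coh (P.obj (host2 H S hW' hX').X)),
      z ∈ W'.alg (P.obj (host2 H S hW' hX').X) l →
      FrH H S hW' hX' F P z = (((q : ℚ) : ℂ)) ^ l • z) (L : ℕ)
    (u : Ten (Sub (host2 H S hW' hX').D (0, 1)) L) (hu : At1 (host2 H S hW' hX') L u) :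
    gT (FM H S hW' hX' F q) u = u := by
  have hsym := symH H S hW' hX' hc hp hF
  exact fix_sub (gam_blocks (host2 H S hW' hX') hsym)
      (At := fun L u => u ∈ (host2 H S hW' hX').At L)
      (fun L u hu => at_fix_of (host2 H S hW' hX') (fun P l z hz =>
        gam_fix (host2 H S hW' hX') (sq_ne hq) (sq_sq q) hsym (extH H S hW' hX' F) P
          (hW'.alg_gr ((host2 H S hW' hX').memP P) hz) (frob P l z hz)) L u hu) L u hu

/-- `ψ` is positive on the algebraic tensors of length `2`. -/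
theorem pos_at1 (hq : 0 < q)
    (hc : ∀ x ∈ W.gr (H.X 0) 0, ∃ c : ℂ, x = c • (1 : W.coh (H.X 0)))
    (hp : PositiveDivisor W (H.X 0) (H.n 0) (H.ξ 0))
    (hF : W'.pull F ξ' = (((q : ℚ) : ℂ)) • ξ')
    (frob : ∀ (P : Prd 1) (l : ℕ) (z : W'.coh (P.obj (host2 H S hW' hX').X)),
      z ∈ W'.alg (P.obj (host2 H S hW' hX').X) l →
      FrH H S hW' hX' F P z = (((q : ℚ) : ℂ)) ^ l • z)
    (hA : AbelianType W' X' (H.n 0)) (hS : EQ.SimpleSpectrum W' (H.n 0) q F)
    (u : Ten (Sub (host2 H S hW' hX').D (0, 1)) 2) (hu : At1 (host2 H S hW' hX') 2 u)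
    (h0 : u ≠ 0) :
    ∃ q : ℚ, 0 < q ∧ psiT (subD (host2 H S hW' hX').D (0, 1)) u u = (q : ℂ) := by
  -- the eigenvalues
  obtain ⟨a, ha, h⟩ := hS
  choose hn x hx hx0 hFx using h
  have hsym := symH H S hW' hX' hc hp hF
  have hsq : ‖E.sq q‖ ^ 2 = (q : ℝ) := by
    rw [← norm_pow, sq_sq]
    simp
  have hcard : Fintype.card (Sub (host2 H S hW' hX').D (0, 1)) = 2 * H.n 0 :=
    Hst.card_two (host2 H S hW' hX') 0 hA
  let e : Sub (host2 H S hW' hX').D (0, 1) ≃ Fin (2 * H.n 0) := Fintype.equivFinOfCardEq hcard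
  have hs := sq_ne hq
  exact pos_simple alg1 (aSys_sub (aSys_at (at_ (host2 H S hW' hX'))))
    (fun i => by
      show (host2 H S hW' hX').D.odd ((host2 H S hW' hX').D.typ i.1)
      rw [i.2]
      exact Hst.odd_one (host2 H S hW' hX') 0) (fun i j => i.2.trans j.2.symm)
    (gam_one (host2 H S hW' hX') hs (sq_sq q) hsym (S.posd hp))
    (mten_real (host2 H S hW' hX') (mten_mem (host2 H S hW' hX') hs hsym F
      (leafH H S hW' hX' F)))
    (fun u hu => fix_at1 H S hW' hX' F hq hc hp hF frob 2 u hu)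
    (l := fun i => a (e i) / E.sq q) (fun i j hij => by
      have h2 : a (e i) / E.sq q = a (e j) / E.sq q := hij
      exact e.injective (ha ((div_left_inj' hs).1 h2)))
    (fun i => by
      rw [norm_div]
      have h2 : ‖a (e i)‖ = ‖E.sq q‖ := by
        rw [← sq_eq_sq₀ (norm_nonneg _) (norm_nonneg _), hsq]
        exact hn (e i)
      rw [h2, div_self (norm_ne_zero_iff.2 hs)])
    (fun i => by
      let y : W'.coh ((host2 H S hW' hX').X 0) := x (e i)
      have hy1 : y ∈ W'.gr ((host2 H S hW' hX').X 0) 1 := hx (e i)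
      have h3 : vec1 (host2 H S hW' hX') (crd1 (host2 H S hW' hX') y) = y :=
        vec1_crd1 (host2 H S hW' hX') hy1
      refine ⟨crd1 (host2 H S hW' hX') y, ?_, ?_⟩
      · intro h2
        apply hx0 (e i)
        rw [h2, map_zero] at h3
        exact h3.symm
      · have h4 := frob_vec1 (host2 H S hW' hX') hs hsym (FrH H S hW' hX' F (.leaf 0)) rfl
          (crd1 (host2 H S hW' hX') y)
        have h5 : FrH H S hW' hX' F (.leaf 0) y = a (e i) • y := hFx (e i)
        have h6 : FrH H S hW' hX' F (.leaf 0) (vec1 (host2 H S hW' hX')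
            (crd1 (host2 H S hW' hX') y)) = a (e i) • y :=
          (congrArg (fun z => FrH H S hW' hX' F (.leaf 0) z) h3).trans h5
        have h7 := congrArg (crd1 (host2 H S hW' hX')) (h6.symm.trans h4)
        have h8 : crd1 (host2 H S hW' hX') (a (e i) • y)
            = a (e i) • crd1 (host2 H S hW' hX') y := map_smul _ _ _
        rw [crd1_vec1, h8, Matrix.smul_mulVec] at h7
        rw [div_eq_inv_mul, mul_smul, h7, smul_smul, inv_mul_cancel₀ hs, one_smul]) hu h0

/-- **Hodge index** -/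
theorem index (hq : 0 < q)
    (hc : ∀ x ∈ W.gr (H.X 0) 0, ∃ c : ℂ, x = c • (1 : W.coh (H.X 0)))
    (hp : PositiveDivisor W (H.X 0) (H.n 0) (H.ξ 0))
    (hF : W'.pull F ξ' = (((q : ℚ) : ℂ)) • ξ')
    (frob : ∀ (P : Prd 1) (l : ℕ) (z : W'.coh (P.obj (host2 H S hW' hX').X)),
      z ∈ W'.alg (P.obj (host2 H S hW' hX').X) l →
      FrH H S hW' hX' F P z = (((q : ℚ) : ℂ)) ^ l • z)
    (hA : AbelianType W' X' (H.n 0)) (hS : EQ.SimpleSpectrum W' (H.n 0) q F) :
    HodgeCodim W' (X' ⊗ X') (H.n 0 + H.n 0)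
      (W'.pull (fst X' X') ξ' + W'.pull (snd X' X') ξ') 1 := by
  have hpol : IsPol W' (host2 H S hW' hX').ξ (.prod (.leaf 0) (.leaf 0))
      (W'.pull (fst X' X') ξ' + W'.pull (snd X' X') ξ') := by
    have h1 : IsPol W' (host2 H S hW' hX').ξ (.leaf 0) ξ' := by
      have h2 := IsPol.leaf (W := W') (ξ := (host2 H S hW' hX').ξ) 0 1 one_pos
      have h3 : W'.scal (((1 : ℚ) : ℂ)) ((host2 H S hW' hX').ξ 0) = ξ' := by
        show (((1 : ℚ) : ℂ)) • ξ' = ξ'
        rw [Rat.cast_one, one_smul]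
      exact (congrArg (fun y => IsPol W' (host2 H S hW' hX').ξ (.leaf 0) y) h3).mp h2
    exact IsPol.prod _ _ _ _ h1 h1
  have hAb : ∀ a, AbelianType W' ((host2 H S hW' hX').X a) ((host2 H S hW' hX').n a) := by
    intro a
    obtain rfl : a = 0 := Subsingleton.elim _ _
    exact hA
  have hpd : ∀ a, PositiveDivisor W' ((host2 H S hW' hX').X a) ((host2 H S hW' hX').n a)
      ((host2 H S hW' hX').ξ a) := by
    intro a
    obtain rfl : a = 0 := Subsingleton.elim _ _
    exact S.posd hp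
  refine q1 (host2 H S hW' hX') hAb hpd hpol one_pos (posD_of _ fun u hu h0 => ?_)
  obtain ⟨r, hr, h1⟩ := pos_at1 H S hW' hX' F hq hc hp hF frob hA hS u hu h0
  refine ⟨(r : ℝ), by exact_mod_cast hr, ?_⟩
  rw [h1]
  push_cast
  rfl

end index

/-! ### The theorem -/

/-- **Tate's theorem and the Hodge index theorem** for a simple spectrum -/
theorem hypS : HypSStatement.{u, v, w, w'} := by
  intro k _ W 𝒱 hW k' _ W' 𝒱' hW' D h
  have hu := unital hW h.mem h.conn h.unital h.div
  obtain ⟨c⟩ := Hst.exists_core hW h.mem h.div.1 hu.1 hu.2.1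
  have hA : AbelianType W D.X D.g := abelianType_of_unital hW h.mem h.conn h.unital h.div
  have hA' : AbelianType W' D.X' D.g :=
    spc_abelianType (spcOf h.spec D.ξ) hW hW' h.mem h.mem' hA
  have hq : (((D.q : ℚ) : ℂ)) = (D.q : ℂ) := by norm_cast
  have hξ : W'.IsAlg D.X' 1 (D.s (.leaf 0) D.ξ) := h.spec.alg (.leaf 0) 1 D.ξ h.div.1
  have hpull : W'.pull D.F (D.s (.leaf 0) D.ξ) = (((D.q : ℚ) : ℂ)) • D.s (.leaf 0) D.ξ := by
    have h1 := h.frob (.leaf 0) 1 (D.s (.leaf 0) D.ξ) hξ
    rw [pow_one] at h1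
    rw [hq]
    exact h1
  exact
    { mem := h.mem
      conn := h.conn
      unital := h.unital
      div := h.div
      mem' := h.mem'
      spec := h.spec
      pos := h.pos
      frob := fun P l z hz => h.frob P l _ (h.spec.alg P l z hz)
      ratio := h.ratio
      tate := commutant hW' h.mem' hA'.rank h.simple
      index := index (c.host hW h.mem h.div.1) (spcOf h.spec D.ξ) hW' h.mem' D.F h.pos h.conn
        h.div hpull (fun P l z hz => by
          rw [hq]
          exact h.frob P l z hz) hA' h.simple }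

end Pool.Agent.Lib.MP_361a6f_ag.FL.K0
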