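import Pool.Agent.Lib.MP_361a6f_ag.FL.K0.Pos

/-!
# The form `ψ` on the tensors of the matrices that commute with a semisimple matrix
-/

set_option autoImplicit false
set_option linter.unusedSectionVars false

namespace Pool.Agent.Lib.MP_361a6f_ag.FL.K0

open Pool.Agent.Lib.MP_361a6f_ag.FL.E Pool.Agent.Lib.MP_361a6f_ag.FL.E.QS

variable {I Λ : Type} [Fintype I] [DecidableEq I] [DecidableEq Λ] {D : Dat I Λ}

/-- the adjoint for `ψ` -/
def dag (D : Dat I Λ) (B : Matrix I I ℂ) : Matrix I I ℂ :=
  Matrix.of fun j i => D.s i * D.s j * B (D.τ i) (D.τ j)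

theorem dag_apply (B : Matrix I I ℂ) (j i : I) :
    dag D B j i = D.s i * D.s j * B (D.τ i) (D.τ j) := rfl

/-- `ψ` on the tensors of two matrices -/
theorem psi_mten (A B : Matrix I I ℂ) :
    psiT D (mten D A) (mten D B) = ∑ i, ∑ j, D.s i * D.s j * (A i j * B (D.τ i) (D.τ j)) := by
  let τe : I ≃ I := ⟨D.τ, D.τ, D.τ_τ, D.τ_τ⟩
  unfold psiT
  rw [← (finTwoArrowEquiv I).symm.sum_comp, Fintype.sum_prod_type]
  refine Finset.sum_congr rfl fun i _ => ?_
  rw [← τe.sum_comp fun j => D.s i * D.s j * (A i j * B (D.τ i) (D.τ j))]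
  refine Finset.sum_congr rfl fun j _ => ?_
  show sg D ![i, j] * (A i (D.τ j) * D.s (D.τ j) *
    (B (D.τ i) (D.τ (D.τ j)) * D.s (D.τ (D.τ j)))) =
      D.s i * D.s (D.τ j) * (A i (D.τ j) * B (D.τ i) (D.τ (D.τ j)))
  rw [D.τ_τ, sg, Fin.prod_univ_two]
  show D.s i * D.s j * (A i (D.τ j) * D.s (D.τ j) * (B (D.τ i) j * D.s j)) = _
  have h := s_sq D j
  linear_combination (D.s i * A i (D.τ j) * D.s (D.τ j) * B (D.τ i) j) * h

theorem psi_dag (A B : Matrix I I ℂ) :
    psiT D (mten D A) (mten D B) = (A * dag D B).trace := by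
  rw [psi_mten, Matrix.trace]
  refine Finset.sum_congr rfl fun i _ => ?_
  rw [Matrix.diag_apply, Matrix.mul_apply]
  refine Finset.sum_congr rfl fun j _ => ?_
  rw [dag_apply]
  ring

theorem dag_dag (hodd : ∀ i, D.odd (D.typ i)) (B : Matrix I I ℂ) : dag D (dag D B) = B := by
  ext j i
  rw [dag_apply, dag_apply, D.τ_τ, D.τ_τ, (D.odd_τ i (hodd i)).2, (D.odd_τ j (hodd j)).2]
  linear_combination (B j i) * (s_sq D i) + (B j i * (D.s i * D.s i)) * (s_sq D j)

theorem dag_mul (A B : Matrix I I ℂ) : dag D (A * B) = dag D B * dag D A := by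
  let τe : I ≃ I := ⟨D.τ, D.τ, D.τ_τ, D.τ_τ⟩
  ext j i
  rw [dag_apply, Matrix.mul_apply, Matrix.mul_apply, Finset.mul_sum, ← τe.sum_comp]
  refine Finset.sum_congr rfl fun k _ => ?_
  show D.s i * D.s j * (A (D.τ i) (D.τ k) * B (D.τ k) (D.τ j)) = dag D B j k * dag D A k i
  rw [dag_apply, dag_apply]
  linear_combination (-D.s i * D.s j * (A (D.τ i) (D.τ k) * B (D.τ k) (D.τ j))) * (s_sq D k)

theorem dag_one : dag D (1 : Matrix I I ℂ) = 1 := by
  ext j i
  rw [dag_apply]
  by_cases h : j = i
  · subst h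
    rw [Matrix.one_apply_eq, Matrix.one_apply_eq, mul_one, s_sq]
  · rw [Matrix.one_apply_ne h, Matrix.one_apply_ne, mul_zero]
    intro h'
    apply h
    have := congrArg D.τ h'
    rw [D.τ_τ, D.τ_τ] at this
    exact this.symm

/-- the adjoint of an element of the group is its inverse -/
theorem dag_G (hodd : ∀ i, D.odd (D.typ i)) {M : Matrix I I ℂ} (hM : IsG D M) :
    dag D M * M = 1 := by
  ext j i
  rw [Matrix.mul_apply]
  have h1 := congrFun (congrFun hM.2 (D.τ j)) i
  rw [Psi_apply, Matrix.mul_apply, D.τ_τ] at h1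
  have h2 : ∀ k, (M.transpose * Psi D) (D.τ j) k * M k i
      = D.s (D.τ k) * M (D.τ k) (D.τ j) * M k i := by
    intro k
    congr 1
    rw [Matrix.mul_apply, Finset.sum_eq_single (D.τ k)]
    · rw [Psi_apply, D.τ_τ, if_pos rfl, Matrix.transpose_apply, mul_comm]
    · intro b _ hb
      rw [Psi_apply, if_neg fun h => hb (by rw [h, D.τ_τ]), mul_zero]
    · intro h
      exact absurd (Finset.mem_univ _) h
  have h3 : ∑ k, dag D M j k * M k i = -D.s j * ∑ k, (M.transpose * Psi D) (D.τ j) k * M k i := by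
    rw [Finset.mul_sum]
    refine Finset.sum_congr rfl fun k _ => ?_
    rw [h2, dag_apply, (D.odd_τ k (hodd k)).2]
    ring
  rw [h3, h1]
  by_cases h : i = j
  · subst h
    rw [if_pos rfl, Matrix.one_apply_eq, (D.odd_τ i (hodd i)).2]
    linear_combination s_sq D i
  · rw [if_neg h, mul_zero, Matrix.one_apply_ne fun h' => h h'.symm]

/-- the adjoint of a matrix that commutes with an element of the group -/
theorem dag_comm (hodd : ∀ i, D.odd (D.typ i)) {M x : Matrix I I ℂ} (hM : IsG D M)
    (hx : x * M = M * x) : dag D x * M = M * dag D x := by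
  have h1 := congrArg (dag D) hx
  rw [dag_mul, dag_mul] at h1
  have h2 := dag_G hodd hM
  have h3 : M * dag D M = 1 := mul_eq_one_comm.1 h2
  calc dag D x * M = M * dag D M * dag D x * M := by rw [h3, Matrix.one_mul]
    _ = M * (dag D M * dag D x) * M := by simp only [Matrix.mul_assoc]
    _ = M * dag D x * (dag D M * M) := by rw [h1]; simp only [Matrix.mul_assoc]
    _ = M * dag D x := by rw [h2, Matrix.mul_one]

/-- **The form is nondegenerate** on the tensors of the matrices that commute with `M`. -/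
theorem nondeg (hodd : ∀ i, D.odd (D.typ i)) {M P : Matrix I I ℂ} (hM : IsG D M) {μ : I → ℂ}
    (hP : IsUnit P) (hMP : M * P = P * Matrix.diagonal μ) {A : Matrix I I ℂ} (hA : A * M = M * A)
    (h0 : ∀ x, x * M = M * x → psiT D (mten D A) (mten D x) = 0) : A = 0 := by
  have htr : ∀ x, x * M = M * x → (A * x).trace = 0 := by
    intro x hx
    have h1 := h0 (dag D x) (dag_comm hodd hM hx)
    rwa [psi_dag, dag_dag hodd] at h1
  obtain ⟨P', hP'⟩ := hP.exists_right_inv
  have hP'' : P' * P = 1 := mul_eq_one_comm.1 hP'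
  set A' := P' * A * P with hA'
  have hPm : P' * M * P = Matrix.diagonal μ := by
    rw [Matrix.mul_assoc, hMP, ← Matrix.mul_assoc, hP'', Matrix.one_mul]
  have hMd : M = P * Matrix.diagonal μ * P' := by
    rw [← hMP, Matrix.mul_assoc, hP', Matrix.mul_one]
  have hAd : A' * Matrix.diagonal μ = Matrix.diagonal μ * A' := by
    rw [← hPm, hA']
    calc P' * A * P * (P' * M * P) = P' * A * (P * P') * M * P := by simp only [Matrix.mul_assoc]
      _ = P' * (A * M) * P := by rw [hP']; simp only [Matrix.mul_assoc, Matrix.one_mul]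
      _ = P' * M * (P * P') * A * P := by
          rw [hA, hP']; simp only [Matrix.mul_assoc, Matrix.one_mul]
      _ = _ := by simp only [Matrix.mul_assoc]
  have hA0 : A' = 0 := by
    ext i j
    rw [Matrix.zero_apply]
    by_cases hij : μ i = μ j
    · -- the elementary matrix
      have h1 : (P * Matrix.single j i 1 * P') * M = M * (P * Matrix.single j i 1 * P') := by
        have h2 : Matrix.single j i (1 : ℂ) * Matrix.diagonal μ
            = Matrix.diagonal μ * Matrix.single j i 1 := by
          ext a b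
          rw [Matrix.mul_diagonal, Matrix.diagonal_mul, Matrix.single_apply]
          by_cases hab : j = a ∧ i = b
          · obtain ⟨rfl, rfl⟩ := hab
            rw [if_pos ⟨rfl, rfl⟩, hij]
            ring
          · rw [if_neg hab, zero_mul, mul_zero]
        rw [hMd]
        calc P * Matrix.single j i 1 * P' * (P * Matrix.diagonal μ * P')
            = P * Matrix.single j i 1 * (P' * P) * Matrix.diagonal μ * P' := by
              simp only [Matrix.mul_assoc]
          _ = P * (Matrix.single j i 1 * Matrix.diagonal μ) * P' := by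
              rw [hP'']; simp only [Matrix.mul_assoc, Matrix.one_mul]
          _ = P * Matrix.diagonal μ * (P' * P) * Matrix.single j i 1 * P' := by
              rw [h2, hP'']; simp only [Matrix.mul_assoc, Matrix.one_mul]
          _ = _ := by simp only [Matrix.mul_assoc]
      have h3 := htr _ h1
      have h4 : (A * (P * Matrix.single j i 1 * P')).trace = (A' * Matrix.single j i 1).trace := by
        rw [hA', ← Matrix.mul_assoc, Matrix.trace_mul_comm]
        simp only [Matrix.mul_assoc]
      rw [h4] at h3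
      have h5 : (A' * Matrix.single j i (1 : ℂ)).trace = A' i j := by
        rw [Matrix.trace, Finset.sum_eq_single i]
        · rw [Matrix.diag_apply, Matrix.mul_apply, Finset.sum_eq_single j]
          · rw [Matrix.single_apply, if_pos ⟨rfl, rfl⟩, mul_one]
          · intro b _ hb
            rw [Matrix.single_apply, if_neg fun h => hb h.1.symm, mul_zero]
          · intro h
            exact absurd (Finset.mem_univ _) h
        · intro b _ hb
          rw [Matrix.diag_apply, Matrix.mul_apply]
          refine Finset.sum_eq_zero fun c _ => ?_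
          rw [Matrix.single_apply, if_neg fun h => hb h.2.symm, mul_zero]
        · intro h
          exact absurd (Finset.mem_univ _) h
      rwa [h5] at h3
    · have h1 := congrFun (congrFun hAd i) j
      rw [Matrix.diagonal_mul, Matrix.mul_diagonal] at h1
      have h2 : (μ i - μ j) * A' i j = 0 := by linear_combination -h1
      exact (mul_eq_zero.1 h2).resolve_left (sub_ne_zero.2 hij)
  have h6 : A = P * A' * P' := by
    rw [hA']
    calc A = (P * P') * A * (P * P') := by rw [hP', Matrix.one_mul, Matrix.mul_one]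
      _ = _ := by simp only [Matrix.mul_assoc]
  rw [h6, hA0, Matrix.mul_zero, Matrix.zero_mul]

/-- a matrix with a basis of eigenvectors -/
theorem exists_eig {M : Matrix I I ℂ}
    (h : ∀ c : I → ℂ, c ∈ Submodule.span ℂ {c : I → ℂ | ∃ μ : ℂ, M.mulVec c = μ • c}) :
    ∃ (P : Matrix I I ℂ) (μ : I → ℂ), IsUnit P ∧ M * P = P * Matrix.diagonal μ := by
  classical
  obtain ⟨f, hf, hspan, hli⟩ := Submodule.exists_fun_fin_finrank_span_eq ℂ
    {c : I → ℂ | ∃ μ : ℂ, M.mulVec c = μ • c}
  have htop : Submodule.span ℂ {c : I → ℂ | ∃ μ : ℂ, M.mulVec c = μ • c} = ⊤ :=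
    top_unique fun c _ => h c
  have hcard : Module.finrank ℂ (Submodule.span ℂ {c : I → ℂ | ∃ μ : ℂ, M.mulVec c = μ • c})
      = Fintype.card I := by
    rw [htop, finrank_top, Module.finrank_fintype_fun_eq_card]
  choose μ hμ using hf
  let e : I ≃ Fin (Module.finrank ℂ (Submodule.span ℂ
      {c : I → ℂ | ∃ μ : ℂ, M.mulVec c = μ • c})) := Fintype.equivFinOfCardEq hcard.symm
  refine ⟨Matrix.of fun a i => f (e i) a, fun i => μ (e i), ?_, ?_⟩
  · rw [← Matrix.linearIndependent_cols_iff_isUnit]
    exact hli.comp e e.injective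
  · ext a i
    rw [Matrix.mul_diagonal]
    have h1 := congrFun (hμ (e i)) a
    rw [Pi.smul_apply, smul_eq_mul] at h1
    rw [Matrix.mul_apply, Matrix.of_apply, mul_comm, ← h1]
    rfl

/-- a semidefinite rational form: isotropic vectors are orthogonal to everything -/
theorem cs {Ct : (L : ℕ) → Ten I L → Prop} (a1 : Alg1) (S : ASys D Ct) {L : ℕ}
    (hpos : ∀ u, Ct L u → ∃ r : ℝ, 0 ≤ r ∧ psiT D u u = (r : ℂ)) {u : Ten I L} (hu : Ct L u)
    (h0 : psiT D u u = 0) {b : Ten I L} (hb : Ct L b) : psiT D u b = 0 := by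
  obtain ⟨p, hp⟩ := Qps.psi_rat S hu hb
  obtain ⟨q, hq⟩ := Qps.psi_rat S hb hb
  have hp' : psiT D b u = (p : ℂ) := by
    rw [← hp]
    exact Qps.psi_symm a1 (S.even L b hb) (S.even L u hu)
  have key : ∀ t : ℚ, 0 ≤ q + 2 * t * p := by
    intro t
    obtain ⟨r, hr, h1⟩ := hpos (b + (t : ℂ) • u) (S.add L _ _ hb (S.qsmul L t u hu))
    have h2 : psiT D (b + (t : ℂ) • u) (b + (t : ℂ) • u)
        = psiT D b b + (t : ℂ) * psiT D b u + ((t : ℂ) * psiT D u b + (t : ℂ) * ((t : ℂ)
          * psiT D u u)) := by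
      show Qps.psiL D L (b + (t : ℂ) • u) (b + (t : ℂ) • u)
        = Qps.psiL D L b b + (t : ℂ) * Qps.psiL D L b u + ((t : ℂ) * Qps.psiL D L u b
          + (t : ℂ) * ((t : ℂ) * Qps.psiL D L u u))
      simp only [map_add, map_smul, LinearMap.add_apply, LinearMap.smul_apply, smul_eq_mul]
      ring
    rw [h2, hp', hp, hq, h0] at h1
    have h3 : ((q + 2 * t * p : ℚ) : ℂ) = (r : ℂ) := by
      rw [← h1]
      push_cast
      ring
    have h4 : (((q + 2 * t * p : ℚ)) : ℝ) = r := by exact_mod_cast h3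
    have h5 : (0 : ℝ) ≤ (((q + 2 * t * p : ℚ)) : ℝ) := by rw [h4]; exact hr
    exact_mod_cast h5
  have hp0 : p = 0 := by
    by_contra hne
    have h1 := key (-(q + 1) / (2 * p))
    have h2 : q + 2 * (-(q + 1) / (2 * p)) * p = -1 := by
      field_simp
      ring
    rw [h2] at h1
    norm_num at h1
  rw [hp, hp0, Rat.cast_zero]

end Pool.Agent.Lib.MP_361a6f_ag.FL.K0
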