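import Pool.Agent.Lib.MP_361a6f_ag.FL.E.NSys
import Pool.Agent.Lib.MP_361a6f_ag.FL.E.S.Slot
import Pool.Agent.Lib.MP_361a6f_ag.FL.E.Rea

/-!
# Frobenius with a simple spectrum: the Hodge index theorem in coordinates

If `F` lies in the group, fixes all members of length `2`, the tensor of `F` is a real combination of
members, and `F` has `dim V` different eigenvalues of absolute value `1`, then `ψ` is positive on the
members of length `2`.
-/

set_option autoImplicit false
set_option linter.unusedSectionVars false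

namespace Pool.Agent.Lib.MP_361a6f_ag.FL.K0

open Pool.Agent.Lib.MP_361a6f_ag.FL.E Pool.Agent.Lib.MP_361a6f_ag.FL.E.QS

variable {I Λ : Type} [Fintype I] [DecidableEq I] [DecidableEq Λ] {D : Dat I Λ}
  {Ct : (L : ℕ) → Ten I L → Prop}

/-- `ψ` on the tensors of two diagonal matrices -/
theorem psi_diag (c d : I → ℂ) :
    psiT D (mten D (Matrix.diagonal c)) (mten D (Matrix.diagonal d)) = ∑ i, c i * d (D.τ i) := by
  unfold psiT
  rw [← (finTwoArrowEquiv I).symm.sum_comp, Fintype.sum_prod_type]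
  refine Finset.sum_congr rfl fun i _ => ?_
  rw [Finset.sum_eq_single (D.τ i)]
  · show sg D ![i, D.τ i] * (Matrix.diagonal c i (D.τ (D.τ i)) * D.s (D.τ (D.τ i)) *
      (Matrix.diagonal d (D.τ i) (D.τ (D.τ (D.τ i))) * D.s (D.τ (D.τ (D.τ i))))) = _
    rw [D.τ_τ, Matrix.diagonal_apply_eq, Matrix.diagonal_apply_eq, sg, Fin.prod_univ_two]
    show D.s i * D.s (D.τ i) * (c i * D.s i * (d (D.τ i) * D.s (D.τ i))) = _
    have h1 := s_sq D i
    have h2 := s_sq D (D.τ i)
    linear_combination (c i * d (D.τ i) * (D.s (D.τ i) * D.s (D.τ i))) * h1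
      + (c i * d (D.τ i)) * h2
  · intro j _ hj
    show sg D ![i, j] * (Matrix.diagonal c i (D.τ j) * D.s (D.τ j) * _) = 0
    rw [Matrix.diagonal_apply_ne _ (fun h => hj (by rw [h, D.τ_τ])), zero_mul, zero_mul, mul_zero]
  · intro h
    exact absurd (Finset.mem_univ _) h

/-- Vandermonde -/
theorem vand {m d : I → ℂ} (hm : Function.Injective m) (h : ∀ n : ℕ, ∑ i, d i * m i ^ n = 0) :
    d = 0 := by
  have e := Fintype.equivFin I
  have h1 : (fun j => d (e.symm j)) = 0 := by
    refine Matrix.eq_zero_of_forall_pow_sum_mul_pow_eq_zero (f := fun j => m (e.symm j))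
      (hm.comp e.symm.injective) fun n => ?_
    rw [← h n]
    exact e.symm.sum_comp fun i => d i * m i ^ (n : ℕ)
  funext i
  have h2 := congrFun h1 (e i)
  rwa [Equiv.symm_apply_apply] at h2

/-- the tensors of the powers of `F` -/
theorem mten_pow (S : ASys D Ct) (hodd : ∀ i, D.odd (D.typ i)) (htyp : ∀ i j, D.typ i = D.typ j)
    {F : Matrix I I ℂ} (hm : mten D F ∈ Submodule.span ℝ {u : Ten I 2 | Ct 2 u}) (n : ℕ) :
    mten D (F ^ n) ∈ Submodule.span ℝ {u : Ten I 2 | Ct 2 u} := by
  rcases isEmpty_or_nonempty I with hI | ⟨⟨i0⟩⟩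
  · have h : mten D (F ^ n) = 0 := by
      funext w
      exact hI.elim (w 0)
    rw [h]
    exact zero_mem _
  induction n with
  | zero =>
    rw [pow_zero]
    have h : mten D (1 : Matrix I I ℂ) = om D (D.typ i0) := by
      funext w
      show (1 : Matrix I I ℂ) (w 0) (D.τ (w 1)) * D.s (D.τ (w 1)) = _
      rw [om]
      by_cases h : w 1 = D.τ (w 0)
      · rw [if_pos ⟨htyp _ _, h⟩, h, D.τ_τ, Matrix.one_apply_eq, one_mul]
      · rw [if_neg fun h' => h h'.2, Matrix.one_apply_ne, zero_mul]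
        intro h'
        apply h
        rw [h', D.τ_τ]
    rw [h]
    exact Submodule.subset_span (S.om _)
  | succ n ih =>
    -- products
    have key : ∀ z ∈ Submodule.span ℝ {u : Ten I 2 | Ct 2 u},
        ∀ u ∈ Submodule.span ℝ {u : Ten I 2 | Ct 2 u},
          Slot.sl (opM D z) 0 u ∈ Submodule.span ℝ {u : Ten I 2 | Ct 2 u} := by
      intro z hz u hu
      induction hz using Submodule.span_induction with
      | mem z hz =>
        induction hu using Submodule.span_induction with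
        | mem u hu => exact Submodule.subset_span (Slot.sl_mem S htyp hodd hz 0 hu)
        | zero =>
          have h := Slot.sl_smul (opM D z) (0 : Fin 2) (0 : ℂ) (0 : Ten I 2)
          rw [zero_smul, zero_smul] at h
          rw [h]
          exact zero_mem _
        | add a b _ _ ha hb => rw [Slot.sl_add]; exact add_mem ha hb
        | smul c a _ ha =>
          rw [Qps.real_smul, Slot.sl_smul, ← Qps.real_smul]
          exact Submodule.smul_mem _ _ ha
      | zero =>
        have h := Slot.smul_sl (0 : ℂ) (0 : Matrix I I ℂ) (0 : Fin 2) u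
        rw [zero_smul, zero_smul] at h
        rw [opM_zero, h]
        exact zero_mem _
      | add a b _ _ ha hb => rw [opM_add, Slot.add_sl]; exact add_mem ha hb
      | smul c a _ ha =>
        rw [Qps.real_smul, opM_smul, Slot.smul_sl, ← Qps.real_smul]
        exact Submodule.smul_mem _ _ ha
    have h1 := key _ hm _ ih
    have h2 : Slot.sl (opM D (mten D F)) 0 (mten D (F ^ n)) = mten D (F ^ (n + 1)) := by
      funext w
      rw [opM_mten, pow_succ', Slot.sl]
      show ∑ j, F (w 0) j * mten D (F ^ n) (Function.update w 0 j)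
        = (F * F ^ n) (w 0) (D.τ (w 1)) * D.s (D.τ (w 1))
      rw [Matrix.mul_apply, Finset.sum_mul]
      refine Finset.sum_congr rfl fun j _ => ?_
      show F (w 0) j * ((F ^ n) (Function.update w 0 j 0) (D.τ (Function.update w 0 j 1)) *
        D.s (D.τ (Function.update w 0 j 1))) = _
      rw [Function.update_self, Function.update_of_ne (by norm_num : (1 : Fin 2) ≠ 0), mul_assoc]
    rwa [h2] at h1

/-- `ψ` is real on the real span -/
theorem psi_real (S : ASys D Ct) {L : ℕ} {u v : Ten I L} (hu : Ct L u)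
    (hv : v ∈ Submodule.span ℝ {u : Ten I L | Ct L u}) : ∃ r : ℝ, psiT D u v = (r : ℂ) := by
  induction hv using Submodule.span_induction with
  | mem v hv =>
    obtain ⟨q, hq⟩ := Qps.psi_rat S hu hv
    exact ⟨(q : ℝ), by rw [hq]; push_cast; rfl⟩
  | zero =>
    refine ⟨0, ?_⟩
    have h := map_zero (Qps.psiL D L u)
    rw [Qps.psiL_apply] at h
    rw [h, Complex.ofReal_zero]
  | add a b _ _ ha hb =>
    obtain ⟨r, hr⟩ := ha
    obtain ⟨t, ht⟩ := hb
    refine ⟨r + t, ?_⟩
    have h := map_add (Qps.psiL D L u) a b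
    rw [Qps.psiL_apply, Qps.psiL_apply, Qps.psiL_apply, hr, ht] at h
    rw [h, Complex.ofReal_add]
  | smul c a _ ha =>
    obtain ⟨r, hr⟩ := ha
    refine ⟨c * r, ?_⟩
    have h := map_smul (Qps.psiL D L u) (c : ℂ) a
    rw [Qps.psiL_apply, Qps.psiL_apply, hr, smul_eq_mul] at h
    rw [Qps.real_smul, h, Complex.ofReal_mul]

/-- **Hodge index in coordinates.** -/
theorem pos_simple (a1 : Alg1) (S : ASys D Ct) (hodd : ∀ i, D.odd (D.typ i))
    (htyp : ∀ i j, D.typ i = D.typ j) {F : Matrix I I ℂ} (hF : IsG D F)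
    (hm : mten D F ∈ Submodule.span ℝ {u : Ten I 2 | Ct 2 u})
    (hfix : ∀ u, Ct 2 u → gT F u = u) {l : I → ℂ} (hl : Function.Injective l)
    (hn : ∀ i, ‖l i‖ = 1) (heig : ∀ i, ∃ v : I → ℂ, v ≠ 0 ∧ F.mulVec v = l i • v)
    {u : Ten I 2} (hu : Ct 2 u) (h0 : u ≠ 0) :
    ∃ q : ℚ, 0 < q ∧ psiT D u u = (q : ℂ) := by
  obtain ⟨Y, π, hY, hFY, hlπ⟩ := exists_basis D hodd htyp F hF l hl heig
  obtain ⟨hY1, hY2, hY3⟩ := a1.G_inv D Y hY
  obtain ⟨hF1, hF2, hF3⟩ := a1.G_inv D F hF
  set m : I → ℂ := l ∘ π with hmdef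
  have hminj : Function.Injective m := hl.comp π.injective
  have hmτ : ∀ i, m (D.τ i) * m i = 1 := hlπ
  have hconj : ∀ i, (starRingEnd ℂ) (m (D.τ i)) = m i := by
    intro i
    have h1 : ‖m (D.τ i)‖ = 1 := hn _
    have h2 : m (D.τ i) * (starRingEnd ℂ) (m (D.τ i)) = 1 := by
      rw [Complex.mul_conj, Complex.normSq_eq_norm_sq, h1]
      norm_num
    have h3 : m (D.τ i) ≠ 0 := fun h => by
      rw [h, zero_mul] at h2
      exact zero_ne_one h2
    exact mul_left_cancel₀ h3 (h2.trans (hmτ i).symm)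
  -- the matrix of `u` in the basis of eigenvectors is diagonal
  have hAF : F * opM D u = opM D u * F := by
    have h1 := opM_gT hodd a1 hF u
    rw [hfix u hu] at h1
    conv_rhs => rw [h1]
    rw [Matrix.mul_assoc (F * opM D u), hF3, Matrix.mul_one]
  set A : Matrix I I ℂ := Y⁻¹ * opM D u * Y with hA
  have hAm : Matrix.diagonal m * A = A * Matrix.diagonal m := by
    have h1 : Y⁻¹ * F * Y = Matrix.diagonal m := by
      rw [Matrix.mul_assoc, hFY, ← Matrix.mul_assoc, hY3, Matrix.one_mul]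
    rw [← h1, hA]
    calc Y⁻¹ * F * Y * (Y⁻¹ * opM D u * Y) = Y⁻¹ * F * (Y * Y⁻¹) * opM D u * Y := by
          simp only [Matrix.mul_assoc]
      _ = Y⁻¹ * (F * opM D u) * Y := by rw [hY2]; simp only [Matrix.mul_assoc, Matrix.one_mul]
      _ = Y⁻¹ * opM D u * (Y * Y⁻¹) * F * Y := by
          rw [hAF, hY2]; simp only [Matrix.mul_assoc, Matrix.one_mul]
      _ = _ := by simp only [Matrix.mul_assoc]
  obtain ⟨c, hc⟩ : ∃ c : I → ℂ, A = Matrix.diagonal c := by
    refine ⟨fun i => A i i, ?_⟩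
    ext i j
    by_cases h : i = j
    · rw [h, Matrix.diagonal_apply_eq]
    · rw [Matrix.diagonal_apply_ne _ h]
      have h1 := congrFun (congrFun hAm i) j
      rw [Matrix.diagonal_mul, Matrix.mul_diagonal] at h1
      have h2 : (m i - m j) * A i j = 0 := by linear_combination h1
      exact (mul_eq_zero.1 h2).resolve_left (sub_ne_zero.2 fun h3 => h (hminj h3))
  have huY : gT Y (mten D (Matrix.diagonal c)) = u := by
    have h1 : opM D u * Y = Y * Matrix.diagonal c := by
      rw [← hc, hA, ← Matrix.mul_assoc, ← Matrix.mul_assoc, hY2, Matrix.one_mul]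
    have h2 := Rea.gT_mten hodd hY h1
    rwa [mten_opM] at h2
  -- the tensors of the powers of `F`
  have hFn : ∀ n : ℕ, gT Y (mten D (Matrix.diagonal fun i => m i ^ n)) = mten D (F ^ n) := by
    intro n
    refine Rea.gT_mten hodd hY ?_
    induction n with
    | zero => simp
    | succ n ih =>
      rw [pow_succ, Matrix.mul_assoc, hFY, ← Matrix.mul_assoc, ih, Matrix.mul_assoc,
        Matrix.diagonal_mul_diagonal]
      rfl
  have hreal : ∀ n : ℕ, ∃ r : ℝ, ∑ i, c i * m (D.τ i) ^ n = (r : ℂ) := by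
    intro n
    obtain ⟨r, hr⟩ := psi_real S hu (mten_pow S hodd htyp hm n)
    refine ⟨r, ?_⟩
    rw [← hr]
    conv_rhs => rw [← huY, ← hFn n]
    rw [a1.psiT_gT D Y _ _ hY, psi_diag]
  let τe : I ≃ I := ⟨D.τ, D.τ, D.τ_τ, D.τ_τ⟩
  have hcc : (fun i => c i - (starRingEnd ℂ) (c (D.τ i))) = 0 := by
    refine vand (m := fun i => m (D.τ i)) (hminj.comp τe.injective) fun n => ?_
    obtain ⟨r, hr⟩ := hreal n
    have h1 := congrArg (starRingEnd ℂ) hr
    rw [Complex.conj_ofReal, map_sum] at h1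
    have h2 : ∑ i, (starRingEnd ℂ) (c (D.τ i)) * m (D.τ i) ^ n = (r : ℂ) := by
      rw [← h1, ← τe.sum_comp]
      refine Finset.sum_congr rfl fun i _ => ?_
      have e : D.τ (τe i) = i := D.τ_τ i
      rw [e, map_mul, map_pow, hconj]
    simp only [sub_mul, Finset.sum_sub_distrib]
    rw [hr, h2, sub_self]
  have hcτ : ∀ i, c (D.τ i) = (starRingEnd ℂ) (c i) := by
    intro i
    have h1 := congrFun hcc (D.τ i)
    have h2 : c (D.τ i) - (starRingEnd ℂ) (c (D.τ (D.τ i))) = 0 := h1
    rw [D.τ_τ] at h2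
    exact sub_eq_zero.1 h2
  have hval : psiT D u u = ((∑ i, Complex.normSq (c i) : ℝ) : ℂ) := by
    conv_lhs => rw [← huY]
    rw [a1.psiT_gT D Y _ _ hY, psi_diag, Complex.ofReal_sum]
    refine Finset.sum_congr rfl fun i _ => ?_
    rw [hcτ, Complex.mul_conj]
  have hpos : 0 < ∑ i, Complex.normSq (c i) := by
    obtain ⟨i, hi⟩ : ∃ i, c i ≠ 0 := by
      by_contra hcon
      push Not at hcon
      apply h0
      rw [← huY]
      have h1 : Matrix.diagonal c = 0 := by
        ext i j
        rw [Matrix.diagonal_apply]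
        split_ifs with h
        · exact hcon i
        · rfl
      have h2 : mten D (0 : Matrix I I ℂ) = 0 := by
        funext w
        show (0 : Matrix I I ℂ) (w 0) (D.τ (w 1)) * D.s (D.τ (w 1)) = 0
        rw [Matrix.zero_apply, zero_mul]
      rw [h1, h2, gT_zero a1]
    refine Finset.sum_pos' (fun i _ => Complex.normSq_nonneg _) ⟨i, Finset.mem_univ _, ?_⟩
    exact Complex.normSq_pos.2 hi
  obtain ⟨q, hq⟩ := Qps.psi_rat S hu hu
  refine ⟨q, ?_, hq⟩
  rw [hval] at hq
  have h3 : (∑ i, Complex.normSq (c i) : ℝ) = (q : ℝ) := by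
    have h4 : ((∑ i, Complex.normSq (c i) : ℝ) : ℂ) = ((q : ℝ) : ℂ) := by
      rw [hq]
      push_cast
      rfl
    exact_mod_cast h4
  rw [h3] at hpos
  exact_mod_cast hpos

end Pool.Agent.Lib.MP_361a6f_ag.FL.K0
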